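import Pool.Agent.KS6_72.SumDiff

/-!
# The exact constant for bipartite graphs

Every `β < 1` has the property asked for in the question, with bipartite graphs; and no bipartite
graph satisfies `df ≥ (1 + β) ⌈sm / 2⌉` for a `β ≥ 1`.  `sm` and `df` are defined in
`Pool/Agent/KS6_72/SumDiff.lean`.
-/

set_option autoImplicit false

namespace Pool.Agent.Results.MP_ee2194_co.BipartiteThreshold

open Pool.Agent.KS6_72.SumDiff

/-- **The exact constant for bipartite graphs.**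
(1) For `β < 1` and all large `s` there is a bipartite graph `G` with `sm(G) = s` and
`df(G) ≥ (1 + β) ⌈sm(G) / 2⌉`; so the answer to the question is yes, with every constant `β < 1`
and with bipartite graphs.
(2) If `β ≥ 1`, then `df(G) < (1 + β) ⌈sm(G) / 2⌉` for every bipartite graph `G` with at least one
edge.
(3) `df(G) ≤ sm(G) - 1` for every bipartite graph with `sm(G) ≥ 2`; equality occurs for every value
of `sm(G)`. -/
theorem result :
    (∀ β : ℝ, β < 1 → ∀ N : ℕ, ∃ s₀ : ℕ, ∀ s : ℕ, s₀ ≤ s →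
      ∃ (V : Type) (_ : Fintype V) (G : SimpleGraph V), G.IsBipartite ∧ (∃ u v, G.Adj u v) ∧
        N ≤ sm G ∧ sm G = s ∧ (1 + β) * (⌈(sm G : ℚ) / 2⌉ : ℝ) ≤ (df G : ℝ)) ∧
    (∀ β : ℝ, 1 ≤ β → ∀ (V : Type) [Fintype V] (G : SimpleGraph V), G.IsBipartite →
      (∃ u v, G.Adj u v) → (df G : ℝ) < (1 + β) * (⌈(sm G : ℚ) / 2⌉ : ℝ)) ∧
    (∀ (V : Type) [Fintype V] (G : SimpleGraph V), G.IsBipartite → 2 ≤ sm G →
      df G + 1 ≤ sm G) ∧
    (∀ s : ℕ, 2 ≤ s → ∃ (V : Type) (_ : Fintype V) (G : SimpleGraph V), G.IsBipartite ∧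
      (∃ u v, G.Adj u v) ∧ sm G = s ∧ df G + 1 = s) := by
  have hex : ∀ s : ℕ, 2 ≤ s → ∃ (V : Type) (_ : Fintype V) (G : SimpleGraph V), G.IsBipartite ∧
      (∃ u v, G.Adj u v) ∧ sm G = s ∧ df G + 1 = s := by
    intro s hs
    obtain ⟨V, inst, G, hG, hE, h1, h2⟩ := (pairs s (s - 1)).2 (Or.inr ⟨by omega, by omega⟩)
    exact ⟨V, inst, G, (bip_iff G).2 hG, hE, h1, by omega⟩
  refine ⟨?_, ?_, ?_, hex⟩
  · intro β hβ N
    obtain ⟨m, hm⟩ := exists_nat_gt (4 / (1 - β))
    refine ⟨max (max N 2) m, fun s hs => ?_⟩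
    have hs1 : N ≤ s := ((le_max_left _ _).trans (le_max_left _ _)).trans hs
    have hs2 : 2 ≤ s := ((le_max_right _ _).trans (le_max_left _ _)).trans hs
    have hs3 : m ≤ s := (le_max_right _ _).trans hs
    obtain ⟨V, inst, G, hG, hE, h1, h2⟩ := hex s hs2
    refine ⟨V, inst, G, hG, hE, by omega, h1, ?_⟩
    rw [ceil_half, h1]
    obtain ⟨k, hk⟩ : ∃ k, s / 2 = k := ⟨_, rfl⟩
    rw [hk]
    have h3 : s ≤ 2 * k + 1 := by omega
    have h4 : (s : ℝ) ≤ 2 * k + 1 := by exact_mod_cast h3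
    have h5 : (df G : ℝ) + 1 = s := by exact_mod_cast h2
    have h6 : (4 : ℝ) < (1 - β) * s := by
      have : 4 / (1 - β) < s := hm.trans_le (by exact_mod_cast hs3)
      rw [div_lt_iff₀ (by linarith)] at this
      linarith
    have h7 : 2 * k ≤ s := by omega
    have h8 : (2 : ℝ) * k ≤ s := by exact_mod_cast h7
    push_cast
    by_cases hb : 0 ≤ 1 + β
    · nlinarith
    · have h9 : (0 : ℝ) ≤ (s : ℝ) - k := by
        have : (0 : ℝ) ≤ k := by positivity
        linarith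
      have h10 : (2 : ℝ) ≤ s := by exact_mod_cast hs2
      nlinarith
  · intro β hβ V _ G hG hE
    obtain ⟨c, hc⟩ := (bip_iff G).1 hG
    have h1 := one_le_sm G hE
    have h2 := df_le_sm G c hc
    have h3 := fun h => df_lt_sm G c hc h
    rw [ceil_half]
    obtain ⟨k, hk⟩ : ∃ k, sm G / 2 = k := ⟨_, rfl⟩
    rw [hk]
    have h4 : df G + 1 ≤ 2 * (sm G - k) := by
      rcases Nat.lt_or_ge (sm G) 2 with h | h
      · omega
      · have := h3 h
        omega
    have h5 : k ≤ sm G := by omega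
    have h6 : (df G : ℝ) + 1 ≤ 2 * ((sm G : ℝ) - k) := by
      have : ((df G + 1 : ℕ) : ℝ) ≤ ((2 * (sm G - k) : ℕ) : ℝ) := by exact_mod_cast h4
      rw [Nat.cast_mul, Nat.cast_sub h5] at this
      push_cast at this
      exact this
    push_cast
    have h7 : (0 : ℝ) ≤ (sm G : ℝ) - k := by
      have : (k : ℝ) ≤ sm G := by exact_mod_cast h5
      linarith
    nlinarith
  · intro V _ G hG h2
    obtain ⟨c, hc⟩ := (bip_iff G).1 hG
    exact df_lt_sm G c hc h2

end Pool.Agent.Results.MP_ee2194_co.BipartiteThreshold
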